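import Pool.Agent.W120.WM.Defs

set_option autoImplicit false

open MeasureTheory Filter Topology Set
open Pool.Agent.W120.WM

namespace Pool.Agent.W853.WM

noncomputable section

open scoped ComplexConjugate

lemma int_summable : Summable (fun m : ℤ => 1 / (1 + (m:ℝ) ^ 2)) := by
  have h1 : Summable (fun m : ℤ => 1 / (m:ℝ) ^ 2) := Real.summable_one_div_int_pow.2 (by norm_num)
  have h2 : Summable (fun m : ℤ => if m = 0 then (1:ℝ) else 0) := (hasSum_ite_eq 0 1).summable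
  refine Summable.of_nonneg_of_le (fun m => by positivity) (fun m => ?_) (h1.add h2)
  by_cases hm : m = 0
  · subst hm
    simp
  · rw [if_neg hm, add_zero]
    have : (0:ℝ) < (m:ℝ) ^ 2 := by
      have : (m:ℝ) ≠ 0 := by exact_mod_cast hm
      positivity
    gcongr
    linarith

/-- the sum of `1/(1+m^2)` -/
def KK0 : ℝ := ∑' m : ℤ, 1 / (1 + (m:ℝ) ^ 2)

lemma KK0_pos : 0 < KK0 := int_summable.tsum_pos (fun m => by positivity) 0 (by norm_num)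

lemma gauss_le (x : ℝ) : Real.exp (-(x ^ 2 / 4)) ≤ 32 / (1 + x ^ 2) ^ 2 := by
  have h0 : (0:ℝ) ≤ x ^ 2 / 4 := by positivity
  have h1 := Real.quadratic_le_exp_of_nonneg h0
  rw [Real.exp_neg, ← one_div, div_le_div_iff₀ (Real.exp_pos _) (by positivity)]
  nlinarith

lemma gauss_le_floor (x : ℝ) :
    Real.exp (-(x ^ 2 / 4)) ≤ 288 / (1 + ((⌊x⌋ : ℤ) : ℝ) ^ 2) ^ 2 := by
  refine (gauss_le x).trans ?_
  have a1 := Int.floor_le x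
  have a2 := Int.lt_floor_add_one x
  set m : ℝ := ((⌊x⌋ : ℤ) : ℝ) with hm
  have h1 : 1 + m ^ 2 ≤ 3 * (1 + x ^ 2) := by
    have : |m| ≤ |x| + 1 := by
      rw [abs_le]
      constructor <;> linarith [le_abs_self x, neg_abs_le x]
    have h2 : |m| ^ 2 ≤ (|x| + 1) ^ 2 := by gcongr
    rw [sq_abs] at h2
    nlinarith [sq_abs x, sq_nonneg (|x| - 1)]
  rw [div_le_div_iff₀ (by positivity) (by positivity)]
  have h3 : (1 + m ^ 2) ^ 2 ≤ (3 * (1 + x ^ 2)) ^ 2 := by gcongr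
  nlinarith

lemma one_le_log (t : ℝ) : 1 ≤ Real.log (3 + |t|) := by
  rw [Real.le_log_iff_exp_le (by positivity)]
  have h1 := Real.exp_one_lt_d9
  have h2 := abs_nonneg t
  have h3 : (2.7182818286 : ℝ) ≤ 3 := by norm_num
  linarith

lemma log_shift (t : ℝ) (m : ℤ) :
    Real.log (3 + |t + m + 1 / 2|) ≤ (2 + |(m:ℝ)|) * Real.log (3 + |t|) := by
  have h0 := abs_nonneg t
  have h1 := abs_nonneg (m:ℝ)
  have h2 : 3 + |t + m + 1 / 2| ≤ (3 + |t|) * (2 + |(m:ℝ)|) := by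
    have h3 : |t + m + 1 / 2| ≤ |t| + |(m:ℝ)| + 1 / 2 := by
      refine (abs_add_le _ _).trans ?_
      have := abs_add_le t (m:ℝ)
      rw [abs_of_pos (show (0:ℝ) < 1 / 2 by norm_num)]
      linarith
    nlinarith
  have h4 : Real.log (3 + |t + m + 1 / 2|) ≤ Real.log ((3 + |t|) * (2 + |(m:ℝ)|)) :=
    Real.log_le_log (by positivity) h2
  rw [Real.log_mul (by positivity) (by positivity)] at h4
  have h5 : Real.log (2 + |(m:ℝ)|) ≤ 1 + |(m:ℝ)| := by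
    have := Real.log_le_sub_one_of_pos (show (0:ℝ) < 2 + |(m:ℝ)| by positivity)
    linarith
  have h6 := one_le_log t
  nlinarith

lemma row_bound (C : ℝ) (hC : 0 < C)
    (h : ∀ (Z : Finset ℂ), (∀ ρ ∈ Z, ρ ∈ NT) → ∀ t : ℝ,
      ((Z.filter (fun ρ => |ρ.im - t| ≤ 1)).card : ℝ) ≤ C * Real.log (3 + |t|))
    (Z : Finset ℂ) (hZ : ∀ ρ ∈ Z, ρ ∈ NT) (t : ℝ) :
    ∑ ρ ∈ Z, Real.exp (-((ρ.im - t) ^ 2 / 4)) ≤ (864 * C * KK0) * Real.log (3 + |t|) := by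
  classical
  have hterm : ∀ ρ ∈ Z, Real.exp (-((ρ.im - t) ^ 2 / 4)) ≤
      288 / (1 + ((⌊ρ.im - t⌋ : ℤ) : ℝ) ^ 2) ^ 2 := fun ρ _ => gauss_le_floor _
  refine (Finset.sum_le_sum hterm).trans ?_
  rw [Finset.sum_comp (fun m : ℤ => 288 / (1 + (m : ℝ) ^ 2) ^ 2) (fun ρ : ℂ => ⌊ρ.im - t⌋)]
  have hlog := one_le_log t
  have hm : ∀ m ∈ Finset.image (fun ρ : ℂ => ⌊ρ.im - t⌋) Z,
      (Z.filter (fun ρ : ℂ => ⌊ρ.im - t⌋ = m)).card • (288 / (1 + (m : ℝ) ^ 2) ^ 2) ≤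
      (864 * C * Real.log (3 + |t|)) * (1 / (1 + (m:ℝ) ^ 2)) := by
    intro m _
    rw [nsmul_eq_mul]
    have h1 : ((Z.filter (fun ρ : ℂ => ⌊ρ.im - t⌋ = m)).card : ℝ) ≤
        C * Real.log (3 + |t + m + 1 / 2|) := by
      refine le_trans ?_ (h Z hZ (t + m + 1 / 2))
      have : Z.filter (fun ρ : ℂ => ⌊ρ.im - t⌋ = m) ⊆
          Z.filter (fun ρ : ℂ => |ρ.im - (t + m + 1 / 2)| ≤ 1) := by
        intro ρ hρ
        rw [Finset.mem_filter] at hρ ⊢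
        refine ⟨hρ.1, ?_⟩
        obtain ⟨c1, c2⟩ := Int.floor_eq_iff.1 hρ.2
        rw [abs_le]
        constructor <;> linarith
      exact_mod_cast Finset.card_le_card this
    have h2 : ((Z.filter (fun ρ : ℂ => ⌊ρ.im - t⌋ = m)).card : ℝ) ≤
        C * ((2 + |(m:ℝ)|) * Real.log (3 + |t|)) :=
      h1.trans (mul_le_mul_of_nonneg_left (log_shift t m) hC.le)
    have h3 : (0:ℝ) < 1 + (m:ℝ) ^ 2 := by positivity
    have h4 : (2 + |(m:ℝ)|) ≤ 3 * (1 + (m:ℝ) ^ 2) := by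
      nlinarith [sq_abs (m:ℝ), abs_nonneg (m:ℝ), sq_nonneg (|(m:ℝ)| - 1)]
    calc ((Z.filter (fun ρ : ℂ => ⌊ρ.im - t⌋ = m)).card : ℝ) * (288 / (1 + (m : ℝ) ^ 2) ^ 2)
        ≤ (C * ((2 + |(m:ℝ)|) * Real.log (3 + |t|))) * (288 / (1 + (m : ℝ) ^ 2) ^ 2) := by
          gcongr
      _ ≤ (C * ((3 * (1 + (m:ℝ) ^ 2)) * Real.log (3 + |t|))) * (288 / (1 + (m : ℝ) ^ 2) ^ 2) := by
          gcongr
      _ = (864 * C * Real.log (3 + |t|)) * (1 / (1 + (m:ℝ) ^ 2)) := by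
          field_simp
          ring
  refine (Finset.sum_le_sum hm).trans ?_
  rw [← Finset.mul_sum]
  have h5 : ∑ m ∈ Finset.image (fun ρ : ℂ => ⌊ρ.im - t⌋) Z, 1 / (1 + (m:ℝ) ^ 2) ≤ KK0 :=
    int_summable.sum_le_tsum _ (fun m _ => by positivity)
  calc (864 * C * Real.log (3 + |t|)) *
        ∑ m ∈ Finset.image (fun ρ : ℂ => ⌊ρ.im - t⌋) Z, 1 / (1 + (m:ℝ) ^ 2)
      ≤ (864 * C * Real.log (3 + |t|)) * KK0 := by gcongr
    _ = _ := by ring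

lemma gauss_int (x : ℝ) : ∫ u : ℝ, Complex.exp (Complex.I * x * u) * Complex.exp (-(1:ℂ) * (u:ℂ) ^ 2)
    = (Real.sqrt Real.pi : ℂ) * (Real.exp (-(x ^ 2 / 4)) : ℂ) := by
  have h := fourierIntegral_gaussian (b := 1) (by norm_num) (x : ℂ)
  rw [h]
  congr 1
  · rw [div_one, Real.sqrt_eq_rpow, Complex.ofReal_cpow Real.pi_pos.le]
    push_cast
    ring_nf
  · push_cast
    congr 1
    ring

lemma gauss_integrable (x : ℝ) :
    Integrable (fun u : ℝ => Complex.exp (Complex.I * x * u) * Complex.exp (-(1:ℂ) * (u:ℂ) ^ 2)) := by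
  have h := integrable_exp_neg_mul_sq (b := 1) (by norm_num)
  have h2 : Integrable (fun u : ℝ => ((Real.exp (-1 * u ^ 2) : ℝ) : ℂ)) := h.ofReal
  refine (h2.bdd_mul (c := 1) (f := fun u : ℝ => Complex.exp (Complex.I * x * u)) ?_ ?_).congr ?_
  · exact (by fun_prop : Continuous fun u : ℝ => Complex.exp (Complex.I * x * u)).aestronglyMeasurable
  · refine Filter.Eventually.of_forall fun u => ?_
    have : Complex.I * x * u = ((x * u : ℝ) : ℂ) * Complex.I := by push_cast; ring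
    rw [this, Complex.norm_exp_ofReal_mul_I]
  · refine Filter.Eventually.of_forall fun u => ?_
    simp

/-- the double sum -/
lemma sq_expand (Z : Finset ℂ) (b : ℂ → ℂ) (u : ℝ) :
    ((2 * Real.exp (-1 * u ^ 2) * ‖∑ ρ ∈ Z, b ρ * Complex.exp (Complex.I * ρ.im * u)‖ ^ 2 : ℝ) : ℂ)
      = ∑ ρ ∈ Z, ∑ ρ' ∈ Z, (2 * b ρ * conj (b ρ')) *
        (Complex.exp (Complex.I * ((ρ.im - ρ'.im : ℝ) : ℂ) * u) *
          Complex.exp (-(1:ℂ) * (u:ℂ) ^ 2)) := by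
  push_cast
  rw [← Complex.mul_conj', map_sum, Finset.sum_mul_sum, Finset.mul_sum]
  refine Finset.sum_congr rfl fun ρ _ => ?_
  rw [Finset.mul_sum]
  refine Finset.sum_congr rfl fun ρ' _ => ?_
  rw [map_mul, ← Complex.exp_conj]
  simp only [map_mul, Complex.conj_I, Complex.conj_ofReal]
  have e : Complex.exp (Complex.I * ((ρ.im : ℂ) - (ρ'.im : ℂ)) * u) =
      Complex.exp (Complex.I * ρ.im * u) * Complex.exp (-Complex.I * ρ'.im * u) := by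
    rw [← Complex.exp_add]
    congr 1
    ring
  rw [e]
  ring

lemma window_le (Z : Finset ℂ) (b : ℂ → ℂ) :
    ∫ u in (-(1/2:ℝ))..(1/2), ‖∑ ρ ∈ Z, b ρ * Complex.exp (Complex.I * ρ.im * u)‖ ^ 2 ≤
      ∑ ρ ∈ Z, ∑ ρ' ∈ Z, (2 * ‖b ρ‖ * ‖b ρ'‖) *
        (Real.sqrt Real.pi * Real.exp (-((ρ.im - ρ'.im) ^ 2 / 4))) := by
  set S : ℝ → ℂ := fun u => ∑ ρ ∈ Z, b ρ * Complex.exp (Complex.I * ρ.im * u) with hS
  set F : ℝ → ℝ := fun u => 2 * Real.exp (-1 * u ^ 2) * ‖S u‖ ^ 2 with hF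
  have hFc : ∀ u : ℝ, ((F u : ℝ) : ℂ) = ∑ ρ ∈ Z, ∑ ρ' ∈ Z, (2 * b ρ * conj (b ρ')) *
        (Complex.exp (Complex.I * ((ρ.im - ρ'.im : ℝ) : ℂ) * u) *
          Complex.exp (-(1:ℂ) * (u:ℂ) ^ 2)) := fun u => sq_expand Z b u
  have hint : Integrable (fun u : ℝ => ((F u : ℝ) : ℂ)) := by
    have : (fun u : ℝ => ((F u : ℝ) : ℂ)) = fun u : ℝ => ∑ ρ ∈ Z, ∑ ρ' ∈ Z, (2 * b ρ * conj (b ρ')) *
        (Complex.exp (Complex.I * ((ρ.im - ρ'.im : ℝ) : ℂ) * u) *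
          Complex.exp (-(1:ℂ) * (u:ℂ) ^ 2)) := funext hFc
    rw [this]
    refine integrable_finsetSum _ fun ρ _ => integrable_finsetSum _ fun ρ' _ => ?_
    exact (gauss_integrable _).const_mul _
  have hFint : Integrable F := by
    have := hint.re
    simpa using this
  have hF0 : ∀ u, 0 ≤ F u := fun u => by simp only [hF]; positivity
  have hval : ((∫ u : ℝ, F u : ℝ) : ℂ) = ∑ ρ ∈ Z, ∑ ρ' ∈ Z, (2 * b ρ * conj (b ρ')) *
      ((Real.sqrt Real.pi : ℂ) * (Real.exp (-((ρ.im - ρ'.im) ^ 2 / 4)) : ℂ)) := by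
    rw [← integral_complex_ofReal]
    simp_rw [hFc]
    rw [integral_finsetSum _ fun ρ _ => integrable_finsetSum _ fun ρ' _ =>
      (gauss_integrable _).const_mul _]
    refine Finset.sum_congr rfl fun ρ _ => ?_
    rw [integral_finsetSum _ fun ρ' _ => (gauss_integrable _).const_mul _]
    refine Finset.sum_congr rfl fun ρ' _ => ?_
    rw [integral_const_mul, gauss_int]
  have hle : ∫ u : ℝ, F u ≤ ∑ ρ ∈ Z, ∑ ρ' ∈ Z, (2 * ‖b ρ‖ * ‖b ρ'‖) *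
        (Real.sqrt Real.pi * Real.exp (-((ρ.im - ρ'.im) ^ 2 / 4))) := by
    have h1 : ∫ u : ℝ, F u ≤ ‖((∫ u : ℝ, F u : ℝ) : ℂ)‖ := by
      rw [Complex.norm_real]
      exact le_abs_self _
    refine h1.trans ?_
    rw [hval]
    refine (norm_sum_le _ _).trans (Finset.sum_le_sum fun ρ _ => ?_)
    refine (norm_sum_le _ _).trans (Finset.sum_le_sum fun ρ' _ => ?_)
    rw [norm_mul, norm_mul, norm_mul, norm_mul, Complex.norm_real, Complex.norm_real, RCLike.norm_conj,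
      Real.norm_of_nonneg (Real.sqrt_nonneg _), Real.norm_of_nonneg (Real.exp_pos _).le]
    simp
  refine le_trans ?_ hle
  rw [intervalIntegral.integral_of_le (by norm_num)]
  have h2 : ∫ u in Ioc (-(1/2:ℝ)) (1/2), ‖S u‖ ^ 2 ≤ ∫ u in Ioc (-(1/2:ℝ)) (1/2), F u := by
    have hcont : Continuous S := by
      simp only [hS]
      fun_prop
    refine setIntegral_mono_on ?_ hFint.integrableOn measurableSet_Ioc ?_
    · exact (((hcont.norm.pow 2).integrableOn_Icc (a := -(1/2:ℝ)) (b := 1/2)).mono_set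
        Ioc_subset_Icc_self)
    · intro u hu
      have h3 : u ^ 2 ≤ 1 / 4 := by nlinarith [hu.1, hu.2]
      have h4 : 1 ≤ 2 * Real.exp (-1 * u ^ 2) := by
        have := Real.add_one_le_exp (-1 * u ^ 2)
        linarith
      simp only [hF]
      nlinarith [sq_nonneg ‖S u‖]
  refine h2.trans ?_
  exact setIntegral_le_integral hFint (Filter.Eventually.of_forall hF0)

lemma schur (C : ℝ) (hC : 0 < C)
    (h : ∀ (Z : Finset ℂ), (∀ ρ ∈ Z, ρ ∈ NT) → ∀ t : ℝ,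
      ((Z.filter (fun ρ => |ρ.im - t| ≤ 1)).card : ℝ) ≤ C * Real.log (3 + |t|))
    (Z : Finset ℂ) (hZ : ∀ ρ ∈ Z, ρ ∈ NT) (b : ℂ → ℂ) :
    ∑ ρ ∈ Z, ∑ ρ' ∈ Z, (2 * ‖b ρ‖ * ‖b ρ'‖) *
        (Real.sqrt Real.pi * Real.exp (-((ρ.im - ρ'.im) ^ 2 / 4))) ≤
      (2 * Real.sqrt Real.pi * (864 * C * KK0)) * ∑ ρ ∈ Z, ‖b ρ‖ ^ 2 * Real.log (3 + |ρ.im|) := by
  have hK := KK0_pos
  have hs := Real.sqrt_nonneg Real.pi
  set s := Real.sqrt Real.pi with hsd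
  set w : ℂ → ℂ → ℝ := fun ρ ρ' => Real.exp (-((ρ.im - ρ'.im) ^ 2 / 4)) with hw
  have hsym : ∀ ρ ρ', w ρ ρ' = w ρ' ρ := fun ρ ρ' => by
    simp only [hw]
    congr 2
    ring
  have h1 : ∑ ρ ∈ Z, ∑ ρ' ∈ Z, (2 * ‖b ρ‖ * ‖b ρ'‖) * (s * w ρ ρ') ≤
      ∑ ρ ∈ Z, ∑ ρ' ∈ Z, (s * (‖b ρ‖ ^ 2 * w ρ ρ') + s * (‖b ρ'‖ ^ 2 * w ρ ρ')) := by
    refine Finset.sum_le_sum fun ρ _ => Finset.sum_le_sum fun ρ' _ => ?_
    have hw0 : 0 ≤ s * w ρ ρ' := mul_nonneg hs (Real.exp_pos _).le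
    nlinarith [mul_nonneg (sq_nonneg (‖b ρ‖ - ‖b ρ'‖)) hw0]
  refine h1.trans ?_
  have h2 : ∑ ρ ∈ Z, ∑ ρ' ∈ Z, (s * (‖b ρ‖ ^ 2 * w ρ ρ') + s * (‖b ρ'‖ ^ 2 * w ρ ρ')) =
      2 * s * ∑ ρ ∈ Z, ‖b ρ‖ ^ 2 * ∑ ρ' ∈ Z, w ρ' ρ := by
    simp_rw [Finset.sum_add_distrib]
    have e2 : ∑ ρ ∈ Z, ∑ ρ' ∈ Z, s * (‖b ρ'‖ ^ 2 * w ρ ρ') =
        ∑ ρ ∈ Z, ∑ ρ' ∈ Z, s * (‖b ρ‖ ^ 2 * w ρ' ρ) := Finset.sum_comm
    have e1 : ∑ ρ ∈ Z, ∑ ρ' ∈ Z, s * (‖b ρ‖ ^ 2 * w ρ ρ') =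
        ∑ ρ ∈ Z, ∑ ρ' ∈ Z, s * (‖b ρ‖ ^ 2 * w ρ' ρ) :=
      Finset.sum_congr rfl fun ρ _ => Finset.sum_congr rfl fun ρ' _ => by rw [hsym]
    rw [e1, e2, Finset.mul_sum, ← Finset.sum_add_distrib]
    refine Finset.sum_congr rfl fun ρ _ => ?_
    rw [Finset.mul_sum, Finset.mul_sum, ← Finset.sum_add_distrib]
    refine Finset.sum_congr rfl fun ρ' _ => ?_
    ring
  rw [h2]
  have h3 : ∑ ρ ∈ Z, ‖b ρ‖ ^ 2 * ∑ ρ' ∈ Z, w ρ' ρ ≤
      ∑ ρ ∈ Z, ‖b ρ‖ ^ 2 * ((864 * C * KK0) * Real.log (3 + |ρ.im|)) := by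
    refine Finset.sum_le_sum fun ρ _ => ?_
    have := row_bound C hC h Z hZ ρ.im
    gcongr
  calc 2 * s * ∑ ρ ∈ Z, ‖b ρ‖ ^ 2 * ∑ ρ' ∈ Z, w ρ' ρ
      ≤ 2 * s * ∑ ρ ∈ Z, ‖b ρ‖ ^ 2 * ((864 * C * KK0) * Real.log (3 + |ρ.im|)) := by gcongr
    _ = _ := by
      rw [Finset.mul_sum, Finset.mul_sum]
      refine Finset.sum_congr rfl fun ρ _ => ?_
      ring

theorem ms (hcnt : T_CNT) : T_MS := by
  obtain ⟨C, hC, h⟩ := hcnt
  have hK := KK0_pos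
  have hs : 0 < Real.sqrt Real.pi := Real.sqrt_pos.2 Real.pi_pos
  refine ⟨2 * Real.sqrt Real.pi * (864 * C * KK0), by positivity, fun Z b V hZ => ?_⟩
  set b' : ℂ → ℂ := fun ρ => b ρ * Complex.exp (Complex.I * ρ.im * ((V + 1 / 2 : ℝ) : ℂ)) with hb'
  have hnorm : ∀ ρ, ‖b' ρ‖ = ‖b ρ‖ := fun ρ => by
    have : Complex.I * ρ.im * ((V + 1 / 2 : ℝ) : ℂ) =
        ((ρ.im * (V + 1 / 2) : ℝ) : ℂ) * Complex.I := by push_cast; ring
    simp only [hb']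
    rw [norm_mul, this, Complex.norm_exp_ofReal_mul_I, mul_one]
  have hshift : ∫ v in V..(V + 1), ‖∑ ρ ∈ Z, b ρ * Complex.exp (Complex.I * ρ.im * v)‖ ^ 2 =
      ∫ u in (-(1/2:ℝ))..(1/2), ‖∑ ρ ∈ Z, b' ρ * Complex.exp (Complex.I * ρ.im * u)‖ ^ 2 := by
    have e := intervalIntegral.integral_comp_add_right
      (a := -(1/2:ℝ)) (b := 1/2)
      (fun v : ℝ => ‖∑ ρ ∈ Z, b ρ * Complex.exp (Complex.I * ρ.im * v)‖ ^ 2) (V + 1 / 2)
    have e1 : -(1/2:ℝ) + (V + 1 / 2) = V := by ring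
    have e2 : (1/2:ℝ) + (V + 1 / 2) = V + 1 := by ring
    rw [e1, e2] at e
    rw [← e]
    refine intervalIntegral.integral_congr fun u _ => ?_
    have : ∑ ρ ∈ Z, b ρ * Complex.exp (Complex.I * ρ.im * ((u + (V + 1 / 2) : ℝ) : ℂ)) =
        ∑ ρ ∈ Z, b' ρ * Complex.exp (Complex.I * ρ.im * u) := by
      refine Finset.sum_congr rfl fun ρ _ => ?_
      simp only [hb']
      rw [mul_assoc (b ρ), ← Complex.exp_add]
      congr 2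
      push_cast
      ring
    show ‖∑ ρ ∈ Z, b ρ * Complex.exp (Complex.I * ρ.im * ((u + (V + 1 / 2) : ℝ) : ℂ))‖ ^ 2 = _
    rw [this]
  rw [hshift]
  have h1 := (window_le Z b').trans (schur C hC h Z (fun ρ hρ => (hZ ρ hρ).1) b')
  simp_rw [hnorm] at h1
  exact h1

end

end Pool.Agent.W853.WM
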